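import Pool.Agent.Q114.SignedWilf.Patterns

set_option autoImplicit false

/-!
# `1 2 ⋯ k` and `2 1 3 ⋯ (k-2) k (k-1)` are Wilf equivalent in signed permutations

`PM n` is `[±n] = {-n, …, -1, 1, …, n}`; a signed permutation is a bijection `w` of `[±n]` with
`w (-i) = - w i`; `Contains w π` is the containment of the pattern `π ∈ S_k` in the whole of `w`;
`positives w` is the number of `i ∈ {1, …, n}` with `w i > 0`.
-/

namespace Pool.Agent.Results.MP_689636_co.AllKAllSigns

open Pool.Agent.Q114.SignedWilf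

/-- `[±n] = {-n, …, -1, 1, …, n}`. -/
abbrev PM (n : ℕ) : Type := {i : ℤ // i ≠ 0 ∧ |i| ≤ n}

/-- Signed permutations: the bijections `w` of `[±n]` with `w (-i) = - w i`. -/
def IsSigned {n : ℕ} (w : Equiv.Perm (PM n)) : Prop :=
  ∀ i j : PM n, (j : ℤ) = -(i : ℤ) → (w j : ℤ) = -(w i : ℤ)

/-- `w` contains the pattern `π`. -/
def Contains {n k : ℕ} (w : Equiv.Perm (PM n)) (π : Equiv.Perm (Fin k)) : Prop :=
  ∃ a : Fin k → PM n, StrictMono a ∧ ∀ r s, w (a r) < w (a s) ↔ π r < π s

/-- The pattern `1 2 3 ⋯ k`. -/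
def iota (k : ℕ) : Equiv.Perm (Fin k) := Equiv.refl _

/-- The pattern `2 1 3 4 ⋯ (k-2) k (k-1)`, for `k ≥ 4`. -/
def tau (k : ℕ) (hk : 4 ≤ k) : Equiv.Perm (Fin k) :=
  Equiv.swap ⟨0, by omega⟩ ⟨1, by omega⟩ * Equiv.swap ⟨k - 2, by omega⟩ ⟨k - 1, by omega⟩

/-- The number of `i ∈ {1, …, n}` with `w i > 0`. -/
noncomputable def positives {n : ℕ} (w : Equiv.Perm (PM n)) : ℕ :=
  Nat.card {i : PM n // 0 < (i : ℤ) ∧ 0 < (w i : ℤ)}

instance finitePM (n : ℕ) : Finite (PM n) := by
  apply Finite.of_injective (fun i : PM n => (⟨i.1, by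
    have := abs_le.1 i.2.2
    rw [Finset.mem_Icc]
    exact this⟩ : Finset.Icc (-(n : ℤ)) n))
  intro i j hij
  ext
  simpa using hij

noncomputable instance fintypePM (n : ℕ) : Fintype (PM n) := Fintype.ofFinite _

/-- Negation on `[±n]`. -/
def ng {n : ℕ} (i : PM n) : PM n := ⟨-i.1, by simpa using i.2.1, by rw [abs_neg]; exact i.2.2⟩

theorem ng_ng {n : ℕ} (i : PM n) : ng (ng i) = i := by ext; simp [ng]

theorem ng_lt {n : ℕ} (i j : PM n) (h : i < j) : ng j < ng i := by
  show -(j : ℤ) < -(i : ℤ)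
  have : (i : ℤ) < (j : ℤ) := h
  omega

theorem isSigned_iff {n : ℕ} (w : Equiv.Perm (PM n)) : IsSigned w ↔ Sym ng w := by
  constructor
  · intro h x
    ext
    exact h x (ng x) rfl
  · intro h i j hij
    have : j = ng i := by ext; exact hij
    rw [this, h i]
    rfl

theorem tN_a {k i : ℕ} (h : 2 ≤ i) (h' : i + 2 = k) : tN false k i = i + 1 := by
  have h1 : ¬ i = 0 := by omega
  have h2 : ¬ i = 1 := by omega
  simp only [tN, Bool.false_eq_true, if_false, if_neg h1, if_neg h2, if_pos h']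

theorem tN_b {k i : ℕ} (h : 2 ≤ i) (h' : i + 1 = k) : tN false k i = i - 1 := by
  have h1 : ¬ i = 0 := by omega
  have h2 : ¬ i = 1 := by omega
  have h3 : ¬ i + 2 = k := by omega
  simp only [tN, Bool.false_eq_true, if_false, if_neg h1, if_neg h2, if_neg h3, if_pos h']

theorem tN_c {k i : ℕ} (h : 2 ≤ i) (h' : i + 2 < k) : tN false k i = i := by
  have h1 : ¬ i = 0 := by omega
  have h2 : ¬ i = 1 := by omega
  have h3 : ¬ i + 2 = k := by omega
  have h4 : ¬ i + 1 = k := by omega
  simp only [tN, Bool.false_eq_true, if_false, if_neg h1, if_neg h2, if_neg h3, if_neg h4]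

theorem swap_fix {k x y z : ℕ} (hx : x < k) (hy : y < k) (hz : z < k) (h1 : z ≠ x) (h2 : z ≠ y) :
    Equiv.swap (⟨x, hx⟩ : Fin k) ⟨y, hy⟩ ⟨z, hz⟩ = ⟨z, hz⟩ := by
  apply Equiv.swap_apply_of_ne_of_ne
  · intro hc; exact h1 (by simpa using hc)
  · intro hc; exact h2 (by simpa using hc)

theorem tau_val {k : ℕ} (hk : 4 ≤ k) (i : Fin k) : ((tau k hk i : Fin k) : ℕ) = tN false k i := by
  obtain ⟨i, hi⟩ := i
  rw [tau, Equiv.Perm.mul_apply]
  by_cases h0 : i = 0
  · subst h0
    rw [swap_fix (x := k - 2) (y := k - 1) (by omega) (by omega) hi (by omega) (by omega),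
      Equiv.swap_apply_left]
    rfl
  by_cases h1 : i = 1
  · subst h1
    rw [swap_fix (x := k - 2) (y := k - 1) (by omega) (by omega) hi (by omega) (by omega),
      Equiv.swap_apply_right]
    rfl
  by_cases h2 : i + 2 = k
  · have e : (⟨i, hi⟩ : Fin k) = ⟨k - 2, by omega⟩ := by ext; show i = k - 2; omega
    rw [e, Equiv.swap_apply_left, swap_fix (by omega) (by omega) (by omega) (by omega) (by omega)]
    show k - 1 = tN false k (k - 2)
    rw [tN_a (by omega) (by omega)]
    omega
  by_cases h3 : i + 1 = k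
  · have e : (⟨i, hi⟩ : Fin k) = ⟨k - 1, by omega⟩ := by ext; show i = k - 1; omega
    rw [e, Equiv.swap_apply_right, swap_fix (by omega) (by omega) (by omega) (by omega) (by omega)]
    show k - 2 = tN false k (k - 1)
    rw [tN_b (by omega) (by omega)]
    omega
  rw [swap_fix (x := k - 2) (y := k - 1) (by omega) (by omega) hi (by omega) (by omega),
    swap_fix (x := 0) (y := 1) (by omega) (by omega) hi (by omega) (by omega)]
  show i = tN false k i
  rw [tN_c (by omega) (by omega)]

theorem tau_tau {k : ℕ} (hk : 4 ≤ k) (i : Fin k) : tau k hk (tau k hk i) = i := by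
  ext
  rw [tau_val, tau_val]
  obtain ⟨i, hi⟩ := i
  show tN false k (tN false k i) = i
  by_cases h0 : i = 0
  · subst h0; rfl
  by_cases h1 : i = 1
  · subst h1; rfl
  by_cases h2 : i + 2 = k
  · rw [tN_a (i := i) (by omega) h2, tN_b (by omega) (by omega)]
    omega
  by_cases h3 : i + 1 = k
  · rw [tN_b (i := i) (by omega) h3, tN_a (by omega) (by omega)]
    omega
  rw [tN_c (i := i) (by omega) (by omega), tN_c (by omega) (by omega)]

theorem iota_val {k : ℕ} (i : Fin k) : ((iota k i : Fin k) : ℕ) = tN true k i := rfl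

/-- The two patterns. -/
def pat (b : Bool) (k : ℕ) (hk : 4 ≤ k) : Equiv.Perm (Fin k) := if b then iota k else tau k hk

theorem contains_iff {n k h : ℕ} (hk : 4 ≤ k) (ε b : Bool) (hkh : k = 2 * h + 4 + eN ε)
    {w : Equiv.Perm (PM n)} (hw : Sym ng w) :
    ¬ Contains w (pat b k hk) ↔ K ng ε w (ZA b h w) := by
  have h1 : Contains w (pat b k hk) ↔ ∃ a, PatC b k w a := by
    cases b
    · exact gcontains_iff hk w (tau k hk) (tau_tau hk) (tau_val hk)
    · exact gcontains_iff hk w (iota k) (fun _ => rfl) iota_val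
  rw [h1, exists_patC_iff ng_ng ng_lt ε hkh hw, not_not]

open Classical in
theorem positives_eq {n : ℕ} {w : Equiv.Perm (PM n)} (hw : Sym ng w) :
    ((positives w : ℕ) : ℤ) = ∑ x : PM n, (if (x : ℤ) < 0 ∧ (w x : ℤ) < 0 then (1 : ℤ) else 0) := by
  have h1 : positives w = Nat.card {i : PM n // (i : ℤ) < 0 ∧ (w i : ℤ) < 0} := by
    apply Nat.card_congr
    refine ⟨fun i => ⟨ng i.1, ?_⟩, fun i => ⟨ng i.1, ?_⟩, ?_, ?_⟩
    · have := i.2
      rw [hw]
      simp only [ng]
      constructor <;> omega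
    · have := i.2
      rw [hw]
      simp only [ng]
      constructor <;> omega
    · intro i; ext; simp [ng]
    · intro i; ext; simp [ng]
  rw [h1, Nat.card_eq_fintype_card, Fintype.card_subtype, Finset.card_filter]
  push_cast
  rfl

theorem card_eq_aux (n k : ℕ) (hk : 4 ≤ k) (Q : Equiv.Perm (PM n) → Prop)
    (hQ : ∀ w w', Sym ng w → Sym ng w' → positives w = positives w' → (Q w ↔ Q w')) :
    Nat.card {w : Equiv.Perm (PM n) // IsSigned w ∧ ¬ Contains w (pat true k hk) ∧ Q w} =
      Nat.card {w : Equiv.Perm (PM n) // IsSigned w ∧ ¬ Contains w (pat false k hk) ∧ Q w} := by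
  classical
  obtain ⟨h, ε, hkh⟩ : ∃ (h : ℕ) (ε : Bool), k = 2 * h + 4 + eN ε := by
    rcases Nat.even_or_odd k with ⟨m, hm⟩ | ⟨m, hm⟩
    · exact ⟨m - 2, false, by simp only [eN, Bool.false_eq_true, if_false]; omega⟩
    · exact ⟨m - 2, true, by simp only [eN, if_true]; omega⟩
  have key := main_sum (X := PM n) ng_ng ng_lt (v := fun x => (x : ℤ)) (fun x y hxy => hxy) h ε
    (fun w => if Q w then 1 else 0) (by
      intro Z hZ hd w w' hw hw' hr
      have h1 := stat_congr (N := fun x : PM n => (x : ℤ) < 0)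
        (by
          intro x
          have := x.2.1
          simp only [ng]
          omega)
        (by
          intro x y hxy hy
          have : (x : ℤ) ≤ y := hxy
          show (x : ℤ) < 0
          have hy' : (y : ℤ) < 0 := hy
          omega) Z hZ hd h w w' hw' hw hr
      have h2 : positives w = positives w' := by
        have e1 := positives_eq hw
        have e2 := positives_eq hw'
        have : ((positives w : ℕ) : ℤ) = ((positives w' : ℕ) : ℤ) := by
          rw [e1, e2]
          convert h1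
        exact_mod_cast this
      have h3 := hQ w w' hw hw' h2
      by_cases hq : Q w
      · simp only [if_pos hq, if_pos (h3.1 hq)]
      · simp only [if_neg hq, if_neg (fun hc => hq (h3.2 hc))])
  have hcount : ∀ b : Bool,
      ((Nat.card {w : Equiv.Perm (PM n) // IsSigned w ∧ ¬ Contains w (pat b k hk) ∧ Q w} : ℕ) : ℤ) =
      ∑ w ∈ Finset.univ.filter (fun w : Equiv.Perm (PM n) => Sym ng w ∧ K ng ε w (ZA b h w)),
        (if Q w then (1 : ℤ) else 0) := by
    intro b
    rw [Nat.card_eq_fintype_card, Fintype.card_subtype, ← Finset.sum_filter, Finset.filter_filter,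
      Finset.sum_const, nsmul_eq_mul, mul_one]
    congr 2
    ext w
    simp only [Finset.mem_filter, Finset.mem_univ, true_and]
    constructor
    · rintro ⟨h1, h2, h3⟩
      have h1' := (isSigned_iff w).1 h1
      exact ⟨⟨h1', (contains_iff hk ε b hkh h1').1 h2⟩, h3⟩
    · rintro ⟨⟨h1, h2⟩, h3⟩
      exact ⟨(isSigned_iff w).2 h1, (contains_iff hk ε b hkh h1).2 h2, h3⟩
  have : ((Nat.card {w : Equiv.Perm (PM n) // IsSigned w ∧ ¬ Contains w (pat true k hk) ∧ Q w} : ℕ) : ℤ)
      = ((Nat.card {w : Equiv.Perm (PM n) // IsSigned w ∧ ¬ Contains w (pat false k hk) ∧ Q w} : ℕ) : ℤ) := by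
    rw [hcount true, hcount false]
    exact key
  exact_mod_cast this

/-- For every `k ≥ 5` (indeed `k ≥ 4`) and every `n`, the patterns `1 2 ⋯ k` and
`2 1 3 ⋯ (k-2) k (k-1)` are avoided by equally many signed permutations of `[±n]`, and also by
equally many with a given number `j` of positive values at positive positions. -/
theorem result : ∀ (k : ℕ) (hk : 5 ≤ k) (n : ℕ),
    Nat.card {w : Equiv.Perm (PM n) // IsSigned w ∧ ¬ Contains w (iota k)} =
      Nat.card {w : Equiv.Perm (PM n) // IsSigned w ∧ ¬ Contains w (tau k (by omega))} ∧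
    ∀ j : ℕ,
      Nat.card {w : Equiv.Perm (PM n) //
        IsSigned w ∧ ¬ Contains w (iota k) ∧ positives w = j} =
      Nat.card {w : Equiv.Perm (PM n) //
        IsSigned w ∧ ¬ Contains w (tau k (by omega)) ∧ positives w = j} := by
  intro k hk n
  constructor
  · have := card_eq_aux n k (by omega) (fun _ => True) (fun _ _ _ _ _ => Iff.rfl)
    simpa [pat] using this
  · intro j
    have := card_eq_aux n k (by omega) (fun w => positives w = j)
      (fun w w' _ _ e => by rw [e])
    simpa [pat] using this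

end Pool.Agent.Results.MP_689636_co.AllKAllSigns
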